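import Mathlib

/-!
# The permanental Q-polynomial is not a complete graph invariant (MP_5909b9_co, Q1)

Two non-isomorphic graphs on 8 vertices (14 edges) with the same permanental polynomial
`P(G) = per(x I + lam A + mu (J - I - A))`, hence with the same
`Q(G) = omega per(x I + lam A + mu J)`.
-/

open Finset MvPolynomial

namespace Pool.Agent.Results.MP_5909b9_co.SamePolynomial

section Definitions

variable {V : Type*} [Fintype V] [DecidableEq V]

/-- The linear operator `omega` on `ℚ[x, lam, mu]` (variables `X 0`, `X 1`, `X 2`): it sends the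
monomial `x^a lam^b mu^r` to `x^a lam^b mu^r / r!`. -/
noncomputable def omega : MvPolynomial (Fin 3) ℚ →ₗ[ℚ] MvPolynomial (Fin 3) ℚ :=
  (basisMonomials (Fin 3) ℚ).constr ℚ (fun d => monomial d (1 / ((d 2).factorial : ℚ)))

open Classical in
/-- `P(G; x, lam, mu) = per(x I + lam A + mu (J - I - A))`. -/
noncomputable def permP (G : SimpleGraph V) : MvPolynomial (Fin 3) ℚ :=
  Matrix.permanent ((X 0 : MvPolynomial (Fin 3) ℚ) • (1 : Matrix V V (MvPolynomial (Fin 3) ℚ))
    + (X 1 : MvPolynomial (Fin 3) ℚ) • G.adjMatrix (MvPolynomial (Fin 3) ℚ)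
    + (X 2 : MvPolynomial (Fin 3) ℚ) •
      ((Matrix.of fun _ _ => 1) - 1 - G.adjMatrix (MvPolynomial (Fin 3) ℚ)))

open Classical in
/-- `Q(G; x, lam, mu) = omega per(x I + lam A + mu J)`. -/
noncomputable def permQ (G : SimpleGraph V) : MvPolynomial (Fin 3) ℚ :=
  omega (Matrix.permanent
    ((X 0 : MvPolynomial (Fin 3) ℚ) • (1 : Matrix V V (MvPolynomial (Fin 3) ℚ))
    + (X 1 : MvPolynomial (Fin 3) ℚ) • G.adjMatrix (MvPolynomial (Fin 3) ℚ)
    + (X 2 : MvPolynomial (Fin 3) ℚ) • (Matrix.of fun _ _ => 1)))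

end Definitions

/-! ### Laplace expansion of a permanent along the first column -/

theorem perm_succ {R : Type*} [CommSemiring R] {n : ℕ} (M : Matrix (Fin (n+1)) (Fin (n+1)) R) :
    M.permanent = ∑ p : Fin (n+1), M p 0 *
      Matrix.permanent (fun a b : Fin n => M (if a.succ = p then 0 else a.succ) b.succ) := by
  rw [Matrix.permanent, Finset.univ_perm_fin_succ, ← Finset.univ_product_univ]
  simp only [Finset.sum_map, Equiv.toEmbedding_apply, Finset.sum_product, Matrix.permanent]
  refine Finset.sum_congr rfl fun p _ => ?_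
  rw [Finset.mul_sum]
  refine Finset.sum_congr rfl fun σ _ => ?_
  rw [Fin.prod_univ_succ, Equiv.Perm.decomposeFin_symm_apply_zero]
  congr 1
  refine Finset.prod_congr rfl fun i _ => ?_
  have h : Equiv.swap 0 p (σ i).succ = if (σ i).succ = p then 0 else (σ i).succ := by
    rw [Equiv.swap_apply_def, if_neg (Fin.succ_ne_zero _)]
  rw [Equiv.Perm.decomposeFin_symm_apply_succ, h]

/-- Recursive evaluation of the permanent of the matrix `(a, b) ↦ r a (c + b)`. -/
def perF : (n : ℕ) → (Fin n → ℕ → ℕ) → ℕ → ℕ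
  | 0, _, _ => 1
  | 1, r, c => r 0 c
  | 2, r, c => r 0 c * r 1 (c+1) + r 1 c * r 0 (c+1)
  | 3, r, c => r 0 c * (r 1 (c+1) * r 2 (c+2) + r 2 (c+1) * r 1 (c+2)) +
      r 1 c * (r 0 (c+1) * r 2 (c+2) + r 2 (c+1) * r 0 (c+2)) +
      r 2 c * (r 0 (c+1) * r 1 (c+2) + r 1 (c+1) * r 0 (c+2))
  | n+4, r, c => ((List.finRange (n+4)).map (fun p => r p c *
      perF (n+3) (fun a => r (if a.succ = p then 0 else a.succ)) (c+1))).sum

theorem perF_step (n : ℕ) (r : Fin (n+1) → ℕ → ℕ) (c : ℕ) :
    Matrix.permanent (fun a b : Fin (n+1) => r a (c + b)) =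
      ∑ p : Fin (n+1), r p c * Matrix.permanent
        (fun a b : Fin n => r (if a.succ = p then 0 else a.succ) (c + 1 + b)) := by
  rw [perm_succ]
  refine Finset.sum_congr rfl fun p _ => ?_
  congr 2
  funext a b
  congr 1
  simp only [Fin.val_succ]
  omega

theorem perF_eq : ∀ (n : ℕ) (r : Fin n → ℕ → ℕ) (c : ℕ),
    Matrix.permanent (fun a b : Fin n => r a (c + b)) = perF n r c
  | 0, r, c => by simp [perF, Matrix.permanent_isEmpty]
  | 1, r, c => by simp [perF]
  | 2, r, c => by
    rw [perF_step]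
    simp [perF, Fin.sum_univ_succ]
  | 3, r, c => by
    rw [perF_step]
    simp only [perF_step]
    simp [perF, Fin.sum_univ_succ, Matrix.permanent_isEmpty]
    ring
  | n+4, r, c => by
    rw [perF_step, perF, ← Fin.sum_univ_def]
    exact Finset.sum_congr rfl fun p _ => by rw [perF_eq (n+3)]

/-! ### The two graphs -/

/-- Rows of the adjacency matrices as bit masks. -/
def m1 : List ℕ := [232, 176, 224, 65, 66, 135, 157, 103]
def m2 : List ℕ := [232, 112, 96, 193, 130, 199, 47, 57]

def row (m : ℕ) (i j : ℕ) : ℕ :=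
  bif Nat.beq i j then 65536 else bif Nat.testBit m j then 65536 ^ 9 else 1

set_option maxRecDepth 100000 in
theorem key : perF 8 (fun i => row (m1.getD i 0) i) 0 = perF 8 (fun i => row (m2.getD i 0) i) 0 := by
  decide +kernel

/-- The first graph: edges 03 05 06 07 14 15 17 25 26 27 36 46 57 67. -/
def G1 : SimpleGraph (Fin 8) where
  Adj i j := Nat.testBit (m1.getD i 0) j = true
  symm := ⟨by decide⟩
  loopless := ⟨by decide⟩

/-- The second graph: edges 03 05 06 07 14 15 16 25 26 36 37 47 56 57. -/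
def G2 : SimpleGraph (Fin 8) where
  Adj i j := Nat.testBit (m2.getD i 0) j = true
  symm := ⟨by decide⟩
  loopless := ⟨by decide⟩

instance : DecidableRel G1.Adj := fun _ _ => inferInstanceAs (Decidable (_ = true))
instance : DecidableRel G2.Adj := fun _ _ => inferInstanceAs (Decidable (_ = true))

/-! ### Digits -/

theorem digits_unique (B : ℕ) (hB : 0 < B) : ∀ (K : ℕ) (c d : ℕ → ℕ),
    (∀ k, c k < B) → (∀ k, d k < B) →
    ∑ k ∈ range K, c k * B ^ k = ∑ k ∈ range K, d k * B ^ k → ∀ k < K, c k = d k := by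
  intro K
  induction K with
  | zero => intro c d _ _ _ k hk; omega
  | succ K ih =>
    intro c d hc hd h k hk
    rw [sum_range_succ', sum_range_succ'] at h
    have e : ∀ f : ℕ → ℕ, ∑ k ∈ range K, f (k+1) * B ^ (k+1) =
        B * ∑ k ∈ range K, f (k+1) * B ^ k := by
      intro f
      rw [mul_sum]
      exact sum_congr rfl fun k _ => by ring
    rw [e c, e d] at h
    simp only [pow_zero, mul_one] at h
    have h0 : c 0 = d 0 := by
      have := congrArg (· % B) h
      simp only [Nat.mul_add_mod] at this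
      rwa [Nat.mod_eq_of_lt (hc 0), Nat.mod_eq_of_lt (hd 0)] at this
    have h1 : ∑ k ∈ range K, c (k+1) * B ^ k = ∑ k ∈ range K, d (k+1) * B ^ k := by
      rw [h0] at h
      exact Nat.eq_of_mul_eq_mul_left hB (Nat.add_right_cancel h)
    rcases k with _ | k
    · exact h0
    · exact ih (fun k => c (k+1)) (fun k => d (k+1)) (fun k => hc _) (fun k => hd _) h1 k (by omega)

theorem sum_by_stat {ι R : Type*} [Fintype ι] [CommSemiring R] (f : ι → ℕ) (K : ℕ)
    (hf : ∀ i, f i < K) (g : ℕ → R) :
    ∑ i, g (f i) = ∑ k ∈ range K, ((univ.filter (fun i => f i = k)).card : R) * g k := by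
  classical
  rw [← sum_fiberwise_of_maps_to (s := univ) (t := range K) (g := f)
    (fun i _ => mem_range.mpr (hf i)) (fun i => g (f i))]
  refine sum_congr rfl fun k _ => ?_
  rw [← nsmul_eq_mul, ← sum_const]
  exact sum_congr rfl fun i hi => by rw [(mem_filter.mp hi).2]

theorem stat_transfer {ι R : Type*} [Fintype ι] [CommSemiring R] (f h : ι → ℕ) (K B : ℕ)
    (hf : ∀ i, f i < K) (hh : ∀ i, h i < K) (hB : Fintype.card ι < B)
    (e : ∑ i, B ^ f i = ∑ i, B ^ h i) (g : ℕ → R) : ∑ i, g (f i) = ∑ i, g (h i) := by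
  classical
  rw [sum_by_stat f K hf, sum_by_stat h K hh]
  rw [sum_by_stat f K hf (fun k => B ^ k), sum_by_stat h K hh (fun k => B ^ k)] at e
  have hc : ∀ (f : ι → ℕ) k, (univ.filter (fun i => f i = k)).card < B := fun f k =>
    lt_of_le_of_lt (card_le_univ _) hB
  have := digits_unique B (by omega) K _ _ (hc f) (hc h) (by simpa using e)
  exact sum_congr rfl fun k hk => by rw [this k (mem_range.mp hk)]

/-! ### Permanents with three values -/

/-- The exponent statistic of a pair `(i, j)`. -/
def wt (G : SimpleGraph (Fin 8)) [DecidableRel G.Adj] (i j : Fin 8) : ℕ :=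
  if i = j then 1 else if G.Adj i j then 9 else 0

def stat (G : SimpleGraph (Fin 8)) [DecidableRel G.Adj] (σ : Equiv.Perm (Fin 8)) : ℕ :=
  ∑ i, wt G (σ i) i

theorem prod_three {R : Type*} [CommSemiring R] (D E : Fin 8 → Prop) [DecidablePred D]
    [DecidablePred E] (p q r : R) :
    ∏ i, (if D i then p else if E i then q else r) =
      p ^ ((∑ i, (if D i then 1 else if E i then 9 else 0)) % 9) *
      q ^ ((∑ i, (if D i then 1 else if E i then 9 else 0)) / 9) *
      r ^ (8 - (∑ i, (if D i then 1 else if E i then 9 else 0)) % 9 -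
        (∑ i, (if D i then 1 else if E i then 9 else 0)) / 9) := by
  set a := (univ.filter (fun i => D i)).card with ha
  set b := ((univ.filter (fun i => ¬ D i)).filter (fun i => E i)).card with hb
  set c := ((univ.filter (fun i => ¬ D i)).filter (fun i => ¬ E i)).card with hc
  have h1 : a + (univ.filter (fun i => ¬ D i)).card = 8 := by
    rw [ha, card_filter_add_card_filter_not]; rfl
  have h2 : b + c = (univ.filter (fun i => ¬ D i)).card := card_filter_add_card_filter_not _
  have hs : ∑ i, (if D i then 1 else if E i then 9 else 0) = a + 9 * b := by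
    rw [sum_ite, sum_ite]
    simp only [sum_const, smul_eq_mul, mul_zero, add_zero, mul_one, ← ha, ← hb]
    ring
  have hp : ∏ i, (if D i then p else if E i then q else r) = p ^ a * (q ^ b * r ^ c) := by
    rw [prod_ite, prod_ite]
    simp only [prod_const, ← ha, ← hb, ← hc]
  have e1 : (a + 9 * b) % 9 = a := by omega
  have e2 : (a + 9 * b) / 9 = b := by omega
  rw [hs, hp, e1, e2]
  have e3 : 8 - a - b = c := by omega
  rw [e3]
  ring

theorem stat_lt (G : SimpleGraph (Fin 8)) [DecidableRel G.Adj] (σ : Equiv.Perm (Fin 8)) :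
    stat G σ < 73 := by
  have : stat G σ ≤ ∑ _i : Fin 8, 9 := sum_le_sum fun i _ => by unfold wt; split_ifs <;> omega
  simp at this
  omega

/-- The permanent of the matrix with values `p` on the diagonal, `q` on edges, `r` elsewhere. -/
theorem permanent_three {R : Type*} [CommSemiring R] (G : SimpleGraph (Fin 8))
    [DecidableRel G.Adj] (p q r : R) :
    Matrix.permanent (Matrix.of fun i j : Fin 8 => if i = j then p else if G.Adj i j then q else r) =
      ∑ σ : Equiv.Perm (Fin 8), (fun k : ℕ => p ^ (k % 9) * q ^ (k / 9) * r ^ (8 - k % 9 - k / 9))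
        (stat G σ) := by
  rw [Matrix.permanent]
  refine sum_congr rfl fun σ _ => ?_
  exact prod_three (fun i => σ i = i) (fun i => G.Adj (σ i) i) p q r

theorem sumB (G : SimpleGraph (Fin 8)) [DecidableRel G.Adj] (m : Fin 8 → ℕ)
    (hm : ∀ i j : Fin 8, G.Adj i j ↔ Nat.testBit (m i) j = true) :
    ∑ σ : Equiv.Perm (Fin 8), 65536 ^ stat G σ = perF 8 (fun i => row (m i) i) 0 := by
  rw [← perF_eq, Matrix.permanent]
  refine sum_congr rfl fun σ _ => ?_
  rw [stat, ← prod_pow_eq_pow_sum]
  refine prod_congr rfl fun i _ => ?_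
  simp only [wt, row, zero_add]
  by_cases h : σ i = i
  · rw [if_pos h, h]; simp
  · have h' : ¬ ((σ i : Fin 8) : ℕ) = i := fun h'' => h (Fin.ext h'')
    have h3 : Nat.beq ((σ i : Fin 8) : ℕ) i = false := by
      rw [← Bool.not_eq_true, Nat.beq_eq]; exact h'
    rw [if_neg h, h3, cond_false]
    by_cases h4 : G.Adj (σ i) i
    · rw [if_pos h4, (hm _ _).mp h4, cond_true]
    · have : Nat.testBit (m (σ i)) i = false := by
        rw [← Bool.not_eq_true, ← hm]; exact h4
      rw [if_neg h4, this, cond_false, pow_zero]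

theorem sumB_eq : ∑ σ : Equiv.Perm (Fin 8), 65536 ^ stat G1 σ =
    ∑ σ : Equiv.Perm (Fin 8), 65536 ^ stat G2 σ := by
  rw [sumB G1 (fun i => m1.getD i 0) (fun i j => Iff.rfl),
    sumB G2 (fun i => m2.getD i 0) (fun i j => Iff.rfl)]
  exact key

theorem permanent_same {R : Type*} [CommSemiring R] (p q r : R) :
    Matrix.permanent (Matrix.of fun i j : Fin 8 => if i = j then p else if G1.Adj i j then q else r) =
    Matrix.permanent
      (Matrix.of fun i j : Fin 8 => if i = j then p else if G2.Adj i j then q else r) := by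
  rw [permanent_three, permanent_three]
  have hc : Fintype.card (Equiv.Perm (Fin 8)) < 65536 := by
    rw [Fintype.card_perm, Fintype.card_fin]
    decide
  exact stat_transfer (R := R) (stat G1) (stat G2) 73 65536 (stat_lt G1) (stat_lt G2) hc sumB_eq
    (fun k : ℕ => p ^ (k % 9) * q ^ (k / 9) * r ^ (8 - k % 9 - k / 9))

theorem permP_eq (G : SimpleGraph (Fin 8)) [DecidableRel G.Adj] :
    permP G = Matrix.permanent (Matrix.of fun i j : Fin 8 =>
      if i = j then (X 0 : MvPolynomial (Fin 3) ℚ) else if G.Adj i j then X 1 else X 2) := by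
  unfold permP
  refine congrArg Matrix.permanent ?_
  ext1 i j
  simp only [Matrix.add_apply, Matrix.smul_apply, Matrix.one_apply, SimpleGraph.adjMatrix_apply,
    Matrix.sub_apply, Matrix.of_apply, smul_eq_mul]
  by_cases h : i = j
  · subst h; simp
  · by_cases h2 : G.Adj i j <;> simp [h, h2]

theorem permQ_eq (G : SimpleGraph (Fin 8)) [DecidableRel G.Adj] :
    permQ G = omega (Matrix.permanent (Matrix.of fun i j : Fin 8 =>
      if i = j then (X 0 + X 2 : MvPolynomial (Fin 3) ℚ) else if G.Adj i j then X 1 + X 2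
        else X 2)) := by
  unfold permQ
  refine congrArg (fun M : Matrix (Fin 8) (Fin 8) (MvPolynomial (Fin 3) ℚ) =>
    omega (Matrix.permanent M)) ?_
  ext1 i j
  simp only [Matrix.add_apply, Matrix.smul_apply, Matrix.one_apply, SimpleGraph.adjMatrix_apply,
    Matrix.of_apply, smul_eq_mul]
  by_cases h : i = j
  · subst h; simp
  · by_cases h2 : G.Adj i j <;> simp [h, h2]

/-! ### The graphs are not isomorphic -/

theorem not_iso : IsEmpty (G1 ≃g G2) := by
  refine ⟨fun e => ?_⟩
  have hdeg : ∀ v, (univ.filter (fun w => G2.Adj (e v) w)).card =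
      (univ.filter (fun w => G1.Adj v w)).card := by
    intro v
    symm
    refine card_bij (fun w _ => e w) ?_ ?_ ?_
    · intro w hw
      simp only [mem_filter, mem_univ, true_and] at hw ⊢
      exact e.map_adj_iff.mpr hw
    · intro a _ b _ h
      exact e.injective h
    · intro b hb
      simp only [mem_filter, mem_univ, true_and] at hb
      refine ⟨e.symm b, ?_, by simp⟩
      simp only [mem_filter, mem_univ, true_and]
      rw [← e.map_adj_iff]
      simpa using hb
  have h2 : ∃ v, (univ.filter (fun w => G2.Adj v w)).card = 2 ∧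
      ∀ w, G2.Adj v w → (univ.filter (fun u => G2.Adj w u)).card = 5 := by
    decide +kernel
  have h1 : ¬ ∃ v, (univ.filter (fun w => G1.Adj v w)).card = 2 ∧
      ∀ w, G1.Adj v w → (univ.filter (fun u => G1.Adj w u)).card = 5 := by
    decide +kernel
  apply h1
  obtain ⟨v, hv, hw⟩ := h2
  refine ⟨e.symm v, ?_, ?_⟩
  · rw [← hdeg]; simpa using hv
  · intro w h
    rw [← hdeg]
    apply hw
    rw [← e.map_adj_iff] at h
    simpa using h

/-- **MP_5909b9_co, Q1: No.** There are two non-isomorphic graphs on 8 vertices with the same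
`Q`-polynomial (and the same permanental polynomial `P`). -/
theorem result : ∃ G H : SimpleGraph (Fin 8),
    IsEmpty (G ≃g H) ∧ permP G = permP H ∧ permQ G = permQ H := by
  refine ⟨G1, G2, not_iso, ?_, ?_⟩
  · rw [permP_eq, permP_eq, permanent_same]
  · rw [permQ_eq, permQ_eq, permanent_same]

end Pool.Agent.Results.MP_5909b9_co.SamePolynomial
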